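import Pool.Agent.W139.PX.F4

/-! # Level of distribution for the palindromes with given outer and middle digit -/

set_option autoImplicit false

namespace Pool.Agent.Y928.PU

open Finset Filter Topology Pool.Agent.Helper112
open Pool.Agent.W89.PW (Fw BigW PtW fr pv)
open Pool.Agent.W261.PWBV (U U_nonneg U_sum norm_sum_pv double)
open Pool.Agent.H623R3.PBT8 (orth group coprime_pos)

/-- the palindrome with `2 L + 3` digits, outer digit `l`, middle digit `m` -/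
def pg (b L l m : ℕ) (x : Fin L → Fin b × Fin 1) : ℕ :=
  l * (b ^ (2 * L + 2) + 1) + m * b ^ (L + 1) +
    ∑ c : Fin L, (((x c).1 : ℕ) + ((x c).2 : ℕ)) * fr b L c

lemma norm_sum_pg {b : ℕ} (hb : 0 < b) (L l m : ℕ) (α : ℝ) :
    ‖∑ x : Fin L → Fin b × Fin 1, ee (α * (pg b L l m x : ℝ))‖ =
      ((b : ℝ) * ((1 : ℕ) : ℝ)) ^ L * Fw b b 1 L L α := by
  rw [← norm_sum_pv hb one_pos b L α]
  have h1 : ∀ x : Fin L → Fin b × Fin 1, ee (α * (pg b L l m x : ℝ)) =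
      ee (α * (((l : ℝ) - 1) * ((b : ℝ) ^ (2 * L + 2) + 1) + ((m : ℝ) - 1) * (b : ℝ) ^ (L + 1))) *
        ee (α * (pv b b 1 L x : ℝ)) := by
    intro x
    rw [← ls_ee_add]
    congr 1
    unfold pg pv
    push_cast
    ring
  rw [sum_congr rfl (fun x _ => h1 x), ← mul_sum, norm_mul, ls_norm_ee, one_mul]

/-- counting by exponential sums -/
theorem cnt_bound {b : ℕ} (hb : 0 < b) (L q l m : ℕ) (hq : q.Coprime (2 * b)) :
    |(((univ : Finset (Fin L → Fin b × Fin 1)).filter (fun x => q ∣ pg b L l m x)).card : ℝ) -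
      ((b : ℝ) * ((1 : ℕ) : ℝ)) ^ L / q| ≤
      ((b : ℝ) * ((1 : ℕ) : ℝ)) ^ L / q * ∑ d ∈ q.divisors.filter (fun d => 1 < d), U b b 1 L d := by
  have hq0 := coprime_pos hq
  have hqr : (0 : ℝ) < q := by exact_mod_cast hq0
  have hqc : (q : ℂ) ≠ 0 := by exact_mod_cast hq0.ne'
  set C : ℝ := (((univ : Finset (Fin L → Fin b × Fin 1)).filter (fun x => q ∣ pg b L l m x)).card : ℝ) with hC
  -- Fourier expansion
  set T : ℕ → ℂ := fun a => ∑ x : Fin L → Fin b × Fin 1,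
    ee ((a : ℝ) / q * (pg b L l m x : ℝ)) with hT
  have h1 : (C : ℂ) = (1 / (q : ℂ)) * ∑ a ∈ range q, T a := by
    have h2 : (C : ℂ) = ∑ x : Fin L → Fin b × Fin 1,
        (1 / (q : ℂ)) * ∑ a ∈ range q, ee ((a : ℝ) * ((((pg b L l m x : ℕ) : ℝ) - ((0 : ℕ) : ℝ)) / q)) := by
      rw [hC, Finset.card_filter]
      push_cast
      refine sum_congr rfl fun x _ => ?_
      have := orth hq0 (pg b L l m x) 0
      push_cast at this
      rw [this]
      by_cases hm : q ∣ pg b L l m x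
      · rw [if_pos hm, if_pos (Nat.modEq_zero_iff_dvd.2 hm)]
        push_cast
        field_simp
      · rw [if_neg hm, if_neg (fun h => hm (Nat.modEq_zero_iff_dvd.1 h))]
        simp
    rw [h2, ← mul_sum, sum_comm]
    congr 1
    refine sum_congr rfl fun a _ => ?_
    simp only [hT]
    refine sum_congr rfl fun x _ => ?_
    congr 1
    push_cast
    ring
  have hT0 : T 0 = ((b : ℂ) * ((1 : ℕ) : ℂ)) ^ L := by
    simp only [hT]
    simp [ls_ee_zero]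
  have hTn : ∀ a, ‖T a‖ = ((b : ℝ) * ((1 : ℕ) : ℝ)) ^ L * Fw b b 1 L L ((a : ℝ) / q) := by
    intro a
    simp only [hT]
    rw [norm_sum_pg hb]
  have h3 : (C : ℂ) - ((b : ℂ) * ((1 : ℕ) : ℂ)) ^ L / q =
      (1 / (q : ℂ)) * ∑ a ∈ (range q).erase 0, T a := by
    rw [h1, ← Finset.add_sum_erase _ _ (mem_range.2 hq0), hT0]
    ring
  have h4 : |C - ((b : ℝ) * ((1 : ℕ) : ℝ)) ^ L / q| ≤ (1 / (q : ℝ)) * ∑ a ∈ (range q).erase 0,
      ((b : ℝ) * ((1 : ℕ) : ℝ)) ^ L * Fw b b 1 L L ((a : ℝ) / q) := by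
    have h5 : |C - ((b : ℝ) * ((1 : ℕ) : ℝ)) ^ L / q| =
        ‖(C : ℂ) - ((b : ℂ) * ((1 : ℕ) : ℂ)) ^ L / q‖ := by
      rw [← Real.norm_eq_abs, ← Complex.norm_real]
      push_cast
      rfl
    rw [h5, h3, norm_mul]
    have h6 : ‖(1 / (q : ℂ))‖ = 1 / (q : ℝ) := by simp
    rw [h6]
    refine mul_le_mul_of_nonneg_left ?_ (by positivity)
    refine (norm_sum_le _ _).trans (le_of_eq ?_)
    exact sum_congr rfl fun a _ => hTn a
  refine h4.trans (le_of_eq ?_)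
  rw [← mul_sum]
  have h7 : ∑ a ∈ (range q).erase 0, Fw b b 1 L L ((a : ℝ) / q) =
      ∑ d ∈ q.divisors.filter (fun d => 1 < d), U b b 1 L d := by
    have h8 := group hq0 (Fw b b 1 L L)
    rw [← Finset.add_sum_erase _ _ (mem_range.2 hq0)] at h8
    have h9 : q.divisors.filter (fun d => 1 < d) = q.divisors.erase 1 := by
      ext d
      rw [mem_filter, mem_erase, Nat.mem_divisors]
      constructor
      · rintro ⟨h1, h2⟩
        exact ⟨by omega, h1⟩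
      · rintro ⟨h1, h2⟩
        refine ⟨h2, ?_⟩
        have := Nat.pos_of_dvd_of_pos h2.1 hq0
        omega
    have h10 : (1 : ℕ) ∈ q.divisors := Nat.one_mem_divisors.2 hq0.ne'
    rw [← Finset.add_sum_erase _ _ h10] at h8
    have h11 : ∑ a ∈ (range 1).filter (fun a => a.Coprime 1), Fw b b 1 L L ((a : ℝ) / (1 : ℕ)) =
        Fw b b 1 L L (((0 : ℕ) : ℝ) / q) := by
      simp
    rw [h11] at h8
    rw [h9]
    unfold U
    linarith
  rw [h7]
  ring

/-- the level of distribution, uniformly in the outer and middle digits -/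
theorem lev {b : ℕ} (hb : 2 ≤ b) (hP : PtW b b 1) {κ : ℝ} (hκ0 : 0 < κ)
    (hκ1 : κ < 1) (hB : BigW b b 1 κ) (A : ℕ) : ∀ᶠ L : ℕ in atTop, ∀ l m : ℕ,
    ∑ q ∈ (Icc 1 ⌊(b : ℝ) ^ (κ * L)⌋₊).filter (fun q => q.Coprime (2 * b)),
      (q.divisors.card : ℝ) ^ 2 *
        |(((univ : Finset (Fin L → Fin b × Fin 1)).filter (fun x => q ∣ pg b L l m x)).card : ℝ) -
          (b : ℝ) ^ L / q| ≤ (b : ℝ) ^ L / (L : ℝ) ^ A := by
  have hb0 : 0 < b := by omega
  have hbr : (0 : ℝ) < b := by exact_mod_cast hb0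
  have hb1 : (1 : ℝ) ≤ b := by exact_mod_cast hb0
  filter_upwards [U_sum b b 1 (by omega) hP κ hκ0 hκ1 hB (A + 5),
    eventually_ge_atTop ((b + 1) ^ 4)] with L hL hLb l m
  set D := ⌊(b : ℝ) ^ (κ * L)⌋₊ with hD
  have hLb' : ((b : ℝ) + 1) ^ 4 ≤ L := by exact_mod_cast hLb
  have hL1 : (1 : ℝ) ≤ L := by
    have : (1 : ℝ) ≤ ((b : ℝ) + 1) ^ 4 := one_le_pow₀ (by linarith)
    linarith
  have hL0 : (0 : ℝ) < L := by linarith
  have e1 : (b : ℝ) ^ L = ((b : ℝ) * ((1 : ℕ) : ℝ)) ^ L := by rw [Nat.cast_one, mul_one]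
  rw [e1]
  have h1 : ∑ q ∈ (Icc 1 D).filter (fun q => q.Coprime (2 * b)),
      (q.divisors.card : ℝ) ^ 2 *
        |(((univ : Finset (Fin L → Fin b × Fin 1)).filter (fun x => q ∣ pg b L l m x)).card : ℝ) -
          ((b : ℝ) * ((1 : ℕ) : ℝ)) ^ L / q| ≤
      ∑ q ∈ (Icc 1 D).filter (fun q => q.Coprime (2 * b)),
      (q.divisors.card : ℝ) ^ 2 *
        (((b : ℝ) * ((1 : ℕ) : ℝ)) ^ L / q * ∑ d ∈ q.divisors.filter (fun d => 1 < d), U b b 1 L d) := by
    refine sum_le_sum fun q hq => ?_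
    rw [mem_filter] at hq
    exact mul_le_mul_of_nonneg_left (cnt_bound hb0 L q l m hq.2) (by positivity)
  have h2 := h1.trans (double b b 1 L D)
  have h3 := Pool.Agent.H316R2.tau_sq_sum_le D
  have hlog : 1 + Real.log D ≤ (b + 1) * L := by
    rcases Nat.eq_zero_or_pos D with h0 | h0
    · rw [h0]
      simp only [Nat.cast_zero, Real.log_zero, add_zero]
      nlinarith
    · have hDle : (D : ℝ) ≤ (b : ℝ) ^ (κ * L) := Nat.floor_le (by positivity)
      have hDle2 : (D : ℝ) ≤ (b : ℝ) ^ ((1 : ℝ) * L) := by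
        refine hDle.trans (Real.rpow_le_rpow_of_exponent_le hb1 ?_)
        exact mul_le_mul_of_nonneg_right hκ1.le hL0.le
      have h4 : Real.log D ≤ (1 * L) * Real.log b := by
        rw [← Real.log_rpow hbr]
        exact Real.log_le_log (by exact_mod_cast h0) hDle2
      have h5 : Real.log b ≤ b - 1 := Real.log_le_sub_one_of_pos hbr
      have h6 : (1 * L) * Real.log b ≤ (1 * L) * ((b : ℝ) - 1) :=
        mul_le_mul_of_nonneg_left h5 (by positivity)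
      nlinarith [mul_pos hbr hL0]
  have hlog0 : 0 ≤ 1 + Real.log D := by
    have := Real.log_natCast_nonneg D
    linarith
  have h4 : ∑ e ∈ Icc 1 D, (e.divisors.card : ℝ) ^ 2 / e ≤ ((b : ℝ) + 1) ^ 4 * (L : ℝ) ^ 4 := by
    refine h3.trans ?_
    calc (1 + Real.log D) ^ 4 ≤ (((b : ℝ) + 1) * (L : ℝ)) ^ 4 := by gcongr
      _ = ((b : ℝ) + 1) ^ 4 * (L : ℝ) ^ 4 := by ring
  refine h2.trans ?_
  have hS0 : 0 ≤ ∑ e ∈ Icc 1 D, (e.divisors.card : ℝ) ^ 2 / e :=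
    sum_nonneg fun _ _ => by positivity
  calc ((b : ℝ) * ((1 : ℕ) : ℝ)) ^ L * ((∑ d ∈ (Icc 2 D).filter (fun q => q.Coprime (2 * b)),
      (d.divisors.card : ℝ) ^ 2 * U b b 1 L d / d) *
        ∑ e ∈ Icc 1 D, (e.divisors.card : ℝ) ^ 2 / e)
      ≤ ((b : ℝ) * ((1 : ℕ) : ℝ)) ^ L * ((1 / (L : ℝ) ^ (A + 5)) * (((b : ℝ) + 1) ^ 4 * (L : ℝ) ^ 4)) :=
        mul_le_mul_of_nonneg_left (mul_le_mul hL h4 hS0 (by positivity)) (by positivity)
    _ ≤ ((b : ℝ) * ((1 : ℕ) : ℝ)) ^ L / (L : ℝ) ^ A := by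
        generalize ((b : ℝ) + 1) ^ 4 = B at hLb'
        have h5 : (1 / (L : ℝ) ^ (A + 5)) * (B * (L : ℝ) ^ 4) = B / L * (1 / (L : ℝ) ^ A) := by
          have hy : ((L : ℝ) ^ A) ≠ 0 := by positivity
          have hx : (L : ℝ) ≠ 0 := hL0.ne'
          rw [pow_add]
          generalize (L : ℝ) ^ A = y at hy
          generalize (L : ℝ) = x at hx
          field_simp
        rw [h5]
        have h6 : B / (L : ℝ) ≤ 1 := by rw [div_le_one hL0]; exact hLb'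
        have h7 : (0 : ℝ) < 1 / (L : ℝ) ^ A := by positivity
        calc ((b : ℝ) * ((1 : ℕ) : ℝ)) ^ L * (B / L * (1 / (L : ℝ) ^ A))
            ≤ ((b : ℝ) * ((1 : ℕ) : ℝ)) ^ L * (1 * (1 / (L : ℝ) ^ A)) := by gcongr
          _ = _ := by ring

end Pool.Agent.Y928.PU
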