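import Pool.Agent.Y928.PU.G
import Pool.Agent.Y928.PU.Lev

/-! # Upper bound for the primes in one family (given outer and middle digit) -/

set_option autoImplicit false

namespace Pool.Agent.Y928.PU

open Finset Filter Topology
open Pool.Agent.W89.Sv (PZ GZ sift prime_dvd_PZ)
open Pool.Agent.W89.PW (BigW PtW fr)

lemma pg_ge {b : ℕ} (L l m : ℕ) (hl : 1 ≤ l) (x : Fin L → Fin b × Fin 1) :
    b ^ (2 * L + 2) < pg b L l m x := by
  unfold pg
  have : b ^ (2 * L + 2) + 1 ≤ l * (b ^ (2 * L + 2) + 1) := Nat.le_mul_of_pos_left _ hl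
  omega

lemma PZ_coprime (m z : ℕ) : (PZ m z).Coprime m := by
  rw [Nat.coprime_iff_gcd_eq_one]
  by_contra h
  obtain ⟨p, hp, hd⟩ := Nat.exists_prime_and_dvd h
  exact (prime_dvd_PZ hp (hd.trans (Nat.gcd_dvd_left _ _))).2 (hd.trans (Nat.gcd_dvd_right _ _))

/-- primes in one family -/
lemma family {b : ℕ} (hb : 2 ≤ b) (L l m : ℕ) (hl : 1 ≤ l) (D : ℝ) (hD : 4 < D)
    (hDL : Real.sqrt D + 1 ≤ (b : ℝ) ^ (2 * L + 2)) :
    ((((univ : Finset (Fin L → Fin b × Fin 1)).filter (fun x => (pg b L l m x).Prime)).card : ℕ) : ℝ) ≤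
      (b : ℝ) ^ L / (((2 * b).totient : ℝ) / ((2 * b : ℕ) : ℝ) * (Real.log D / 2 - Real.log 2)) +
        ∑ q ∈ (Icc 1 ⌊D⌋₊).filter (fun q => q.Coprime (2 * b)),
          (q.divisors.card : ℝ) ^ 2 *
            |(((univ : Finset (Fin L → Fin b × Fin 1)).filter (fun x => q ∣ pg b L l m x)).card : ℝ) -
              (b : ℝ) ^ L / q| := by
  have hb0 : (0 : ℝ) < b := by exact_mod_cast (by omega : 0 < b)
  have hs2 : 2 ≤ Real.sqrt D := by
    rw [show (2 : ℝ) = Real.sqrt 4 by rw [show (4 : ℝ) = 2 ^ 2 by norm_num]; simp]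
    exact Real.sqrt_le_sqrt hD.le
  set z := ⌈Real.sqrt D⌉₊ with hz
  have hzr : Real.sqrt D ≤ (z : ℝ) := Nat.le_ceil _
  have hzr2 : (z : ℝ) < Real.sqrt D + 1 := Nat.ceil_lt_add_one (by linarith)
  have h1 : ((((univ : Finset (Fin L → Fin b × Fin 1)).filter (fun x => (pg b L l m x).Prime)).card : ℕ) : ℝ) ≤
      sift (2 * b) univ (pg b L l m) 1 z := by
    unfold sift
    have : ((univ : Finset (Fin L → Fin b × Fin 1)).filter (fun x => (pg b L l m x).Prime)) ⊆
        (univ : Finset (Fin L → Fin b × Fin 1)).filter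
          (fun x => 1 ∣ pg b L l m x ∧ (pg b L l m x).Coprime (PZ (2 * b) z)) := by
      intro x hx
      rw [mem_filter] at hx ⊢
      refine ⟨hx.1, one_dvd _, ?_⟩
      rw [Nat.Prime.coprime_iff_not_dvd hx.2]
      intro hdvd
      have h2 := (prime_dvd_PZ hx.2 hdvd).1
      have h3 := pg_ge L l m hl x
      have h4 : (z : ℝ) < (b : ℝ) ^ (2 * L + 2) := by linarith
      have h5 : z < b ^ (2 * L + 2) := by exact_mod_cast h4
      omega
    exact_mod_cast card_le_card this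
  have h2 := Pool.Agent.W89.Sv.selberg (2 * b) (univ : Finset (Fin L → Fin b × Fin 1)) (pg b L l m)
    ((b : ℝ) ^ L) (by positivity) z 1 (Nat.coprime_one_left _) one_pos (Real.sqrt D) (by linarith)
  have h3 := G_log (2 * b) (by omega) z (Real.sqrt D) (Real.sqrt D / 2) (by linarith)
    (by linarith) (by linarith)
  have h4 : Real.log (Real.sqrt D / 2) = Real.log D / 2 - Real.log 2 := by
    rw [Real.log_div (by linarith) (by norm_num), Real.log_sqrt (by linarith)]
  rw [h4] at h3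
  have hlog2 : 0 < Real.log 2 := Real.log_pos (by norm_num)
  have hlog4 : Real.log 4 = 2 * Real.log 2 := by
    rw [show (4 : ℝ) = 2 ^ 2 by norm_num, Real.log_pow]
    norm_num
  have hpos : 0 < Real.log D / 2 - Real.log 2 := by
    have h5 : Real.log 4 < Real.log D := Real.log_lt_log (by norm_num) hD
    rw [hlog4] at h5
    linarith
  have htp : (0 : ℝ) < ((2 * b).totient : ℝ) := by
    exact_mod_cast Nat.totient_pos.2 (by omega)
  have h2bp : (0 : ℝ) < ((2 * b : ℕ) : ℝ) := by exact_mod_cast (by omega : 0 < 2 * b)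
  have h5 : (b : ℝ) ^ L / ((1 : ℕ) : ℝ) / GZ (2 * b) (Real.sqrt D) z ≤
      (b : ℝ) ^ L / (((2 * b).totient : ℝ) / ((2 * b : ℕ) : ℝ) * (Real.log D / 2 - Real.log 2)) := by
    rw [Nat.cast_one, div_one]
    exact div_le_div_of_nonneg_left (by positivity) (by positivity) h3
  have h6 : ∑ l' ∈ (PZ (2 * b) z).divisors.filter (fun l' : ℕ => (l' : ℝ) ≤ Real.sqrt D ^ 2),
      (l'.divisors.card : ℝ) ^ 2 *
        |Pool.Agent.W89.Sv.rem (univ : Finset (Fin L → Fin b × Fin 1)) (pg b L l m) ((b : ℝ) ^ L) (1 * l')| ≤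
      ∑ q ∈ (Icc 1 ⌊D⌋₊).filter (fun q => q.Coprime (2 * b)),
        (q.divisors.card : ℝ) ^ 2 *
          |(((univ : Finset (Fin L → Fin b × Fin 1)).filter (fun x => q ∣ pg b L l m x)).card : ℝ) -
              (b : ℝ) ^ L / q| := by
    have h7 : ∀ l' ∈ (PZ (2 * b) z).divisors.filter (fun l' : ℕ => (l' : ℝ) ≤ Real.sqrt D ^ 2),
        l' ∈ (Icc 1 ⌊D⌋₊).filter (fun q => q.Coprime (2 * b)) := by
      intro l' hl'
      rw [mem_filter, Nat.mem_divisors] at hl'
      have hl0 : l' ≠ 0 := fun h => hl'.1.2 (by rw [h] at hl'; exact zero_dvd_iff.mp hl'.1.1)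
      rw [mem_filter, mem_Icc]
      refine ⟨⟨Nat.one_le_iff_ne_zero.mpr hl0, ?_⟩, ?_⟩
      · apply Nat.le_floor
        have := hl'.2
        rwa [Real.sq_sqrt (by linarith)] at this
      · exact Nat.Coprime.coprime_dvd_left hl'.1.1 (PZ_coprime (2 * b) z)
    calc _ = ∑ l' ∈ (PZ (2 * b) z).divisors.filter (fun l' : ℕ => (l' : ℝ) ≤ Real.sqrt D ^ 2),
        (l'.divisors.card : ℝ) ^ 2 *
          |(((univ : Finset (Fin L → Fin b × Fin 1)).filter (fun x => l' ∣ pg b L l m x)).card : ℝ) -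
              (b : ℝ) ^ L / l'| := by
          apply sum_congr rfl
          intro l' _
          rw [one_mul]
          rfl
      _ ≤ _ := by
          apply sum_le_sum_of_subset_of_nonneg h7
          intro q _ _
          positivity
  linarith

/-- the asymptotic form, uniformly in the outer and middle digits -/
theorem famA {b : ℕ} (hb : 2 ≤ b) (hP : PtW b b 1) {κ : ℝ} (hκ0 : 0 < κ) (hκ1 : κ < 1)
    (hB : BigW b b 1 κ) (ε : ℝ) (hε : 0 < ε) : ∀ᶠ L : ℕ in atTop, ∀ l m : ℕ, 1 ≤ l →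
    ((((univ : Finset (Fin L → Fin b × Fin 1)).filter (fun x => (pg b L l m x).Prime)).card : ℕ) : ℝ) ≤
      (4 / κ + ε) * (((2 * b : ℕ) : ℝ) / ((2 * b).totient : ℝ)) *
        ((b : ℝ) ^ L / (2 * ((L : ℝ) + 1) * Real.log b)) := by
  have hbR : (2 : ℝ) ≤ b := by exact_mod_cast hb
  have hb0 : (0 : ℝ) < b := by linarith
  have hlb : 0 < Real.log b := Real.log_pos (by linarith)
  have htp : (0 : ℝ) < ((2 * b).totient : ℝ) := by
    exact_mod_cast Nat.totient_pos.2 (by omega)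
  have h2bp : (0 : ℝ) < ((2 * b : ℕ) : ℝ) := by exact_mod_cast (by omega : 0 < 2 * b)
  obtain ⟨F, hF, hF0⟩ : ∃ F : ℝ, F = ((2 * b).totient : ℝ) / ((2 * b : ℕ) : ℝ) ∧ 0 < F :=
    ⟨_, rfl, by positivity⟩
  have hFi : ((2 * b : ℕ) : ℝ) / ((2 * b).totient : ℝ) = 1 / F := by rw [hF, one_div_div]
  -- the limit
  have hinv : Tendsto (fun L : ℕ => Real.log 2 / (L : ℝ)) atTop (𝓝 0) :=
    tendsto_const_nhds.div_atTop tendsto_natCast_atTop_atTop
  have hinv1 : Tendsto (fun L : ℕ => 1 / (L : ℝ)) atTop (𝓝 0) :=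
    tendsto_const_nhds.div_atTop tendsto_natCast_atTop_atTop
  have hlim : Tendsto (fun L : ℕ => (1 + 1 / (L : ℝ)) *
      (1 / (F * (κ * Real.log b / 2 - Real.log 2 / (L : ℝ))) + 1 / (L : ℝ))) atTop
      (𝓝 ((1 + 0) * (1 / (F * (κ * Real.log b / 2 - 0)) + 0))) := by
    apply Tendsto.mul (hinv1.const_add _)
    apply Tendsto.add _ hinv1
    apply Tendsto.div tendsto_const_nhds
    · exact (hinv.const_sub _).const_mul _
    · rw [sub_zero]
      positivity
  have hlt : (1 + 0) * (1 / (F * (κ * Real.log b / 2 - 0)) + 0) <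
      (4 / κ + ε) * (1 / F) / (2 * Real.log b) := by
    rw [add_zero, add_zero, sub_zero, one_mul]
    have e1 : (4 / κ + ε) * (1 / F) / (2 * Real.log b) =
        1 / (F * (κ * Real.log b / 2)) + ε * (1 / F) / (2 * Real.log b) := by
      field_simp
      ring
    rw [e1]
    have : 0 < ε * (1 / F) / (2 * Real.log b) := by positivity
    linarith
  have hev := hlim.eventually_lt_const hlt
  -- largeness
  have hDt : Tendsto (fun L : ℕ => (b : ℝ) ^ (κ * L)) atTop atTop := by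
    have h1 : Tendsto (fun L : ℕ => κ * (L : ℝ)) atTop atTop :=
      tendsto_natCast_atTop_atTop.const_mul_atTop hκ0
    have h2 : Tendsto (fun x : ℝ => (b : ℝ) ^ x) atTop atTop :=
      tendsto_rpow_atTop_of_base_gt_one b (by linarith)
    exact h2.comp h1
  have hpos : ∀ᶠ L : ℕ in atTop, 1 < κ * Real.log b / 2 * (L : ℝ) := by
    have h1 : Tendsto (fun L : ℕ => κ * Real.log b / 2 * (L : ℝ)) atTop atTop := by
      apply tendsto_natCast_atTop_atTop.const_mul_atTop
      positivity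
    exact h1.eventually_gt_atTop 1
  filter_upwards [hev, hDt.eventually_gt_atTop 4, hpos, lev hb hP hκ0 hκ1 hB 2,
    eventually_ge_atTop 1] with L hL1 hL2 hL3 hL4 hL5 l m hl
  have hLp : (0 : ℝ) < L := by exact_mod_cast hL5
  set D : ℝ := (b : ℝ) ^ (κ * L) with hD
  have hlogD : Real.log D = κ * L * Real.log b := by
    rw [hD, Real.log_rpow hb0]
  have hl2 : Real.log 2 < 1 := by
    have := Real.log_two_lt_d9
    linarith
  have hDle : D ≤ (b : ℝ) ^ L := by
    rw [hD, ← Real.rpow_natCast]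
    apply Real.rpow_le_rpow_of_exponent_le (by linarith)
    nlinarith
  have hDL : Real.sqrt D + 1 ≤ (b : ℝ) ^ (2 * L + 2) := by
    have h1 : Real.sqrt D ≤ D := by
      rw [Real.sqrt_le_left (by linarith)]
      nlinarith
    have h2 : (b : ℝ) ^ (2 * L + 2) = (b : ℝ) ^ L * (b : ℝ) ^ (L + 2) := by
      rw [← pow_add]
      congr 1
      ring
    have h3 : (b : ℝ) ^ 2 ≤ (b : ℝ) ^ (L + 2) := pow_le_pow_right₀ (by linarith) (by omega)
    have h4 : (2 : ℝ) ≤ (b : ℝ) ^ (L + 2) := by nlinarith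
    rw [h2]
    have h5 : (b : ℝ) ^ L * 2 ≤ (b : ℝ) ^ L * (b : ℝ) ^ (L + 2) :=
      mul_le_mul_of_nonneg_left h4 (by positivity)
    linarith
  have h1 := family hb L l m hl D hL2 hDL
  have h2 := hL4 l m
  have h3 : ((((univ : Finset (Fin L → Fin b × Fin 1)).filter (fun x => (pg b L l m x).Prime)).card : ℕ) : ℝ) ≤
      (b : ℝ) ^ L / (F * (Real.log D / 2 - Real.log 2)) + (b : ℝ) ^ L / (L : ℝ) ^ 2 := by
    rw [hF]
    linarith
  refine h3.trans ?_
  rw [hFi]
  have h4 : Real.log D / 2 - Real.log 2 = L * (κ * Real.log b / 2 - Real.log 2 / (L : ℝ)) := by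
    rw [hlogD]; field_simp
  have hden : 0 < κ * Real.log b / 2 - Real.log 2 / (L : ℝ) := by
    have : Real.log 2 / (L : ℝ) < κ * Real.log b / 2 := by
      rw [div_lt_iff₀ hLp]; linarith
    linarith
  rw [h4]
  have h5 : (b : ℝ) ^ L / (F * (L * (κ * Real.log b / 2 - Real.log 2 / (L : ℝ)))) +
      (b : ℝ) ^ L / (L : ℝ) ^ 2 = (b : ℝ) ^ L / ((L : ℝ) + 1) *
        ((1 + 1 / (L : ℝ)) *
          (1 / (F * (κ * Real.log b / 2 - Real.log 2 / (L : ℝ))) + 1 / (L : ℝ))) := by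
    have hden' := hden.ne'
    generalize κ * Real.log b / 2 - Real.log 2 / (L : ℝ) = y at hden'
    have hL1' : (L : ℝ) + 1 ≠ 0 := by positivity
    field_simp
  rw [h5]
  calc (b : ℝ) ^ L / ((L : ℝ) + 1) * ((1 + 1 / (L : ℝ)) *
          (1 / (F * (κ * Real.log b / 2 - Real.log 2 / (L : ℝ))) + 1 / (L : ℝ))) ≤
      (b : ℝ) ^ L / ((L : ℝ) + 1) * ((4 / κ + ε) * (1 / F) / (2 * Real.log b)) :=
        mul_le_mul_of_nonneg_left hL1.le (by positivity)
    _ = (4 / κ + ε) * (1 / F) * ((b : ℝ) ^ L / (2 * ((L : ℝ) + 1) * Real.log b)) := by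
        have hL1' : (L : ℝ) + 1 ≠ 0 := by positivity
        field_simp

end Pool.Agent.Y928.PU
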