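import Pool.Agent.W89.Sv.Sel

/-! # `GZ m ξ z ≥ (φ(m)/m) log u` (port of `Pool.Agent.H965R2.PalS3` from `m = 10` to general `m`) -/

set_option autoImplicit false

namespace Pool.Agent.Y928.PU

open Finset Pool.Agent.W89.Sv

/-- the multiplicative map `n ↦ 1/n` -/
noncomputable def invHom : ℕ →* ℝ where
  toFun n := (n : ℝ)⁻¹
  map_one' := by simp
  map_mul' a b := by push_cast; rw [mul_inv]

/-- the part of the radical of `n` coprime to `m` -/
def ll (m n : ℕ) : ℕ := ∏ p ∈ n.primeFactors.filter (fun p => ¬ p ∣ m), p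

theorem prime_dvd_ll {m n p : ℕ} (hn : n ≠ 0) (hp : p.Prime) (hpn : p ∣ n) (h10 : ¬ p ∣ m) :
    p ∣ ll m n :=
  Finset.dvd_prod_of_mem _ (by simp [hp, hpn, hn, h10])

theorem ll_dvd {m n : ℕ} : ll m n ∣ n :=
  (Finset.prod_dvd_prod_of_subset _ _ _ (Finset.filter_subset _ _)).trans
    (Nat.prod_primeFactors_dvd n)

theorem ll_dvd_PZ {m n z : ℕ} (hnz : n < z) : ll m n ∣ PZ m z := by
  unfold ll PZ PP
  apply Finset.prod_dvd_prod_of_subset
  intro p hp
  simp only [Finset.mem_filter, Nat.mem_primeFactors, Finset.mem_range] at hp ⊢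
  obtain ⟨⟨hp1, hp2, hp3⟩, hp4⟩ := hp
  exact ⟨lt_of_le_of_lt (Nat.le_of_dvd (Nat.pos_of_ne_zero hp3) hp2) hnz, hp1, hp4⟩

/-- the sum over one fibre -/
theorem fibre (m : ℕ) (hm : m ≠ 0) (N z l : ℕ) (hl : l ∣ PZ m z) :
    ∑ n ∈ (Icc 1 N).filter (fun n => ll m n = l), ((n : ℝ))⁻¹ ≤
      (m / (m.totient : ℝ)) * (1 / (l.totient : ℝ)) := by
  have hl0 : l ≠ 0 := fun h => PZ_ne_zero m z (by rw [h] at hl; exact Nat.eq_zero_of_zero_dvd hl)
  have hlpos : 0 < (l : ℝ) := by positivity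
  set S : Finset ℕ := m.primeFactors ∪ l.primeFactors with hS
  have hdisj : Disjoint m.primeFactors l.primeFactors := by
    rw [Finset.disjoint_left]
    intro p hp hp'
    exact (prime_dvd_PZ (Nat.prime_of_mem_primeFactors hp) ((Nat.dvd_of_mem_primeFactors hp').trans hl)).2
      (Nat.dvd_of_mem_primeFactors hp)
  have hSf : S.filter Nat.Prime = S := by
    apply Finset.filter_true_of_mem
    intro p hp
    rw [hS, Finset.mem_union] at hp
    rcases hp with hp | hp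
    · exact Nat.prime_of_mem_primeFactors hp
    · exact Nat.prime_of_mem_primeFactors hp
  have hEP := (EulerProduct.summable_and_hasSum_factoredNumbers_prod_filter_prime_geometric
    (f := invHom) (by
      intro p hp
      show ‖((p : ℝ))⁻¹‖ < 1
      rw [norm_inv, Real.norm_natCast]
      exact inv_lt_one_of_one_lt₀ (by exact_mod_cast hp.one_lt)) S).2
  rw [hSf] at hEP
  have htotg : ∀ k : ℕ, (k.totient : ℝ) = k * ∏ p ∈ k.primeFactors, (1 - ((p : ℝ))⁻¹) := by
    intro k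
    have := Nat.totient_eq_mul_prod_factors k
    have h := congrArg (fun x : ℚ => (x : ℝ)) this
    push_cast at h
    exact h
  have hm0 : (0 : ℝ) < m := by exact_mod_cast Nat.pos_of_ne_zero hm
  have hprod : ∏ p ∈ S, (1 - invHom p)⁻¹ =
      (m / (m.totient : ℝ)) * ∏ p ∈ l.primeFactors, (1 - ((p : ℝ))⁻¹)⁻¹ := by
    rw [hS, Finset.prod_union hdisj]
    congr 1
    rw [htotg m, Finset.prod_inv_distrib]
    have hne : ∏ p ∈ m.primeFactors, (1 - ((p : ℝ))⁻¹) ≠ 0 := by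
      rw [Finset.prod_ne_zero_iff]
      intro p hp
      have hp2 : (1 : ℝ) < p := by exact_mod_cast (Nat.prime_of_mem_primeFactors hp).one_lt
      have : ((p : ℝ))⁻¹ < 1 := inv_lt_one_of_one_lt₀ hp2
      linarith
    show (∏ p ∈ m.primeFactors, (1 - ((p : ℝ))⁻¹))⁻¹ = _
    field_simp
  rw [hprod] at hEP
  have hind : HasSum ((Nat.factoredNumbers S).indicator (fun n : ℕ => ((n : ℝ))⁻¹))
      ((m / (m.totient : ℝ)) * ∏ p ∈ l.primeFactors, (1 - ((p : ℝ))⁻¹)⁻¹) :=
    (hasSum_subtype_iff_indicator (f := fun n : ℕ => ((n : ℝ))⁻¹)).1 hEP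
  have htot := htotg l
  set F := (Icc 1 N).filter (fun n => ll m n = l) with hF
  have hdv : ∀ n ∈ F, l ∣ n := fun n hn => by
    obtain ⟨h1, h2⟩ := Finset.mem_filter.1 hn
    have := ll_dvd (m := m) (n := n)
    rwa [h2] at this
  have hinj : Set.InjOn (fun n => n / l) (F : Set ℕ) := by
    intro a ha b hb hab
    have h1 := Nat.div_mul_cancel (hdv a ha)
    have h2 := Nat.div_mul_cancel (hdv b hb)
    simp only at hab
    rw [← h1, ← h2, hab]
  have hmem : ∀ n ∈ F, n / l ∈ Nat.factoredNumbers S := by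
    intro n hn
    obtain ⟨h1, h2⟩ := Finset.mem_filter.1 hn
    have hn0 : n ≠ 0 := by have := (Finset.mem_Icc.1 h1).1; omega
    rw [Nat.mem_factoredNumbers_iff_forall_le]
    have hk0 : n / l ≠ 0 := by
      have := Nat.div_mul_cancel (hdv n hn)
      intro h
      rw [h] at this
      omega
    refine ⟨hk0, fun p _ hp hpk => ?_⟩
    have hpn : p ∣ n := hpk.trans (Nat.div_dvd_of_dvd (hdv n hn))
    rw [hS, Finset.mem_union]
    by_cases h10 : p ∣ m
    · left
      rw [Nat.mem_primeFactors]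
      exact ⟨hp, h10, hm⟩
    · right
      rw [Nat.mem_primeFactors]
      refine ⟨hp, ?_, hl0⟩
      rw [← h2]
      exact prime_dvd_ll hn0 hp hpn h10
  have hsum : ∑ n ∈ F, ((n : ℝ))⁻¹ = (l : ℝ)⁻¹ * ∑ k ∈ F.image (fun n => n / l),
      (Nat.factoredNumbers S).indicator (fun n : ℕ => ((n : ℝ))⁻¹) k := by
    rw [Finset.sum_image hinj, Finset.mul_sum]
    apply Finset.sum_congr rfl
    intro n hn
    rw [Set.indicator_of_mem (hmem n hn)]
    have h1 := Nat.div_mul_cancel (hdv n hn)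
    have h2 : (n : ℝ) = ((n / l : ℕ) : ℝ) * l := by
      rw [← Nat.cast_mul, h1]
    rw [h2, mul_inv, mul_comm]
  have hle : ∑ k ∈ F.image (fun n => n / l),
      (Nat.factoredNumbers S).indicator (fun n : ℕ => ((n : ℝ))⁻¹) k ≤
      (m / (m.totient : ℝ)) * ∏ p ∈ l.primeFactors, (1 - ((p : ℝ))⁻¹)⁻¹ := by
    apply sum_le_hasSum _ _ hind
    intro k _
    exact Set.indicator_nonneg (fun x _ => by positivity) k
  rw [hsum, htot, one_div, mul_inv, ← Finset.prod_inv_distrib]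
  have := mul_le_mul_of_nonneg_left hle (inv_nonneg.2 hlpos.le)
  refine this.trans (le_of_eq ?_)
  ring

theorem G_log (m : ℕ) (hm : m ≠ 0) (z : ℕ) (ξ u : ℝ) (h1 : 1 ≤ u) (h2 : u < z) (h3 : u ≤ ξ) :
    (m.totient : ℝ) / m * Real.log u ≤ GZ m ξ z := by
  set N := ⌊u⌋₊ with hN
  have hNu : (N : ℝ) ≤ u := Nat.floor_le (by linarith)
  have huN : u < N + 1 := Nat.lt_floor_add_one u
  have hlog : Real.log u ≤ ∑ n ∈ Icc 1 N, ((n : ℝ))⁻¹ := by
    have h4 := log_add_one_le_harmonic N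
    have h5 : ((harmonic N : ℚ) : ℝ) = ∑ n ∈ Icc 1 N, ((n : ℝ))⁻¹ := by
      rw [harmonic_eq_sum_Icc]
      push_cast
      rfl
    rw [h5] at h4
    push_cast at h4
    refine le_trans (Real.log_le_log (by linarith) huN.le) h4
  have hmaps : ∀ n ∈ Icc 1 N, ll m n ∈ (PZ m z).divisors.filter (fun l : ℕ => (l : ℝ) ≤ ξ) := by
    intro n hn
    obtain ⟨hn1, hn2⟩ := Finset.mem_Icc.1 hn
    have hnu : (n : ℝ) ≤ u := le_trans (by exact_mod_cast hn2) hNu
    rw [Finset.mem_filter, Nat.mem_divisors]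
    refine ⟨⟨ll_dvd_PZ ?_, PZ_ne_zero m z⟩, ?_⟩
    · exact_mod_cast lt_of_le_of_lt hnu h2
    · have := Nat.le_of_dvd hn1 (ll_dvd (m := m) (n := n))
      have : (ll m n : ℝ) ≤ n := by exact_mod_cast this
      linarith
  have hfib := Finset.sum_fiberwise_of_maps_to hmaps (fun n : ℕ => ((n : ℝ))⁻¹)
  have hle : ∑ n ∈ Icc 1 N, ((n : ℝ))⁻¹ ≤ (m / (m.totient : ℝ)) * GZ m ξ z := by
    rw [← hfib]
    unfold GZ
    rw [Finset.mul_sum]
    apply Finset.sum_le_sum
    intro l hl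
    exact fibre m hm N z l (Nat.dvd_of_mem_divisors (Finset.mem_filter.1 hl).1)
  have hm0 : (0 : ℝ) < m := by exact_mod_cast Nat.pos_of_ne_zero hm
  have ht0 : (0 : ℝ) < (m.totient : ℝ) := by exact_mod_cast Nat.totient_pos.2 (Nat.pos_of_ne_zero hm)
  calc (m.totient : ℝ) / m * Real.log u ≤ (m.totient : ℝ) / m * ((m / (m.totient : ℝ)) * GZ m ξ z) := by
        gcongr
        exact hlog.trans hle
    _ = GZ m ξ z := by field_simp

end Pool.Agent.Y928.PU
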