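import Pool.Agent.Y928.PU.Fam
import Pool.Agent.H181R5.PB_T9

/-! # All palindromic primes with `2 N + 1` digits -/

set_option autoImplicit false

namespace Pool.Agent.Y928.PU

open Finset Filter Topology
open Pool.Agent.W89.PW (BigW PtW fr)
open Pool.Agent.H181R5.PBT9 (palin pvl palin_eq)

/-- the possible outer digits -/
def outer (b : ℕ) : Finset ℕ := (range b).filter (fun a => b.Coprime a)

/-- the possible middle digits -/
def middle (b : ℕ) : Finset ℕ := (range b).filter (fun m => b % 2 = 1 → m % 2 = 1)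

lemma outer_card (b : ℕ) : (outer b).card = b.totient :=
  (Nat.totient_eq_card_coprime b).symm

lemma odd_card (k : ℕ) : ((range (2 * k + 1)).filter (fun m => m % 2 = 1)).card = k := by
  induction k with
  | zero => decide
  | succ k ih =>
    rw [show 2 * (k + 1) + 1 = (2 * k + 1) + 1 + 1 by ring, range_add_one, filter_insert,
      if_neg (by omega), range_add_one, filter_insert, if_pos (by omega), card_insert_of_notMem, ih]
    simp

lemma middle_card_even {b : ℕ} (h : b % 2 = 0) : (middle b).card = b := by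
  unfold middle
  rw [filter_true_of_mem, card_range]
  intro m _ h'
  omega

lemma middle_card_odd {b : ℕ} (h : b % 2 = 1) : 2 * (middle b).card + 1 = b := by
  unfold middle
  obtain ⟨k, rfl⟩ : ∃ k, b = 2 * k + 1 := ⟨b / 2, by omega⟩
  have h1 : (range (2 * k + 1)).filter (fun m => (2 * k + 1) % 2 = 1 → m % 2 = 1) =
      (range (2 * k + 1)).filter (fun m => m % 2 = 1) := by
    apply filter_congr
    intro m _
    constructor
    · intro h2
      exact h2 h
    · intro h2 _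
      exact h2
  rw [h1, odd_card]

lemma cards {b : ℕ} (hb : 2 ≤ b) :
    ((outer b).card : ℝ) * ((middle b).card : ℝ) * (((2 * b : ℕ) : ℝ) / ((2 * b).totient : ℝ)) =
      ((b : ℝ) - ((b % 2 : ℕ) : ℝ)) * b := by
  have htp : (0 : ℝ) < (b.totient : ℝ) := by exact_mod_cast Nat.totient_pos.2 (by omega)
  rw [outer_card]
  rcases Nat.mod_two_eq_zero_or_one b with h | h
  · rw [middle_card_even h, h]
    have h1 : (2 * b).totient = 2 * b.totient :=
      Nat.totient_mul_of_prime_of_dvd Nat.prime_two (Nat.dvd_of_mod_eq_zero h)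
    rw [h1]
    push_cast
    field_simp
    ring
  · have h1 : (2 * b).totient = b.totient := by
      rw [Nat.totient_mul_of_prime_of_not_dvd Nat.prime_two (by omega)]
      simp
    have h2 : 2 * ((middle b).card : ℝ) + 1 = b := by exact_mod_cast middle_card_odd h
    rw [h1, h]
    push_cast
    field_simp
    linarith

/-- `pvl` in terms of `pg` -/
lemma pvl_pg {b : ℕ} (l L : ℕ) (m : Fin (L + 1) → Fin b) :
    pvl b l (L + 1) m = pg b L l (m 0 : ℕ) (fun c => (m c.succ, 0)) := by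
  unfold pvl pg
  rw [Fin.sum_univ_succ]
  have h1 : Pool.Agent.H39R3.PB.fr b (L + 1) ((0 : Fin (L + 1)) : ℕ) = b ^ (L + 1) := by
    unfold Pool.Agent.H39R3.PB.fr
    simp
  rw [h1, show 2 * (L + 1) = 2 * L + 2 by ring, add_assoc]
  congr 2
  apply sum_congr rfl
  intro c _
  rw [Pool.Agent.W89.PW.fr_eq]
  simp

lemma dvd_fr {b L c : ℕ} (hc : c < L) : b ∣ fr b L c := by
  unfold fr
  exact dvd_add (dvd_pow_self b (by omega)) (dvd_pow_self b (by omega))

lemma prime_outer {b : ℕ} (hb : 2 ≤ b) {L l m : ℕ} (hl : 1 ≤ l) {x : Fin L → Fin b × Fin 1}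
    (hp : (pg b L l m x).Prime) : b.Coprime l := by
  rw [Nat.coprime_iff_gcd_eq_one]
  by_contra h
  obtain ⟨p, hpp, hd⟩ := Nat.exists_prime_and_dvd h
  have h1 : p ∣ b := hd.trans (Nat.gcd_dvd_left _ _)
  have h2 : p ∣ l := hd.trans (Nat.gcd_dvd_right _ _)
  have h3 : p ∣ pg b L l m x := by
    unfold pg
    refine dvd_add (dvd_add (dvd_mul_of_dvd_left h2 _) ?_) ?_
    · exact dvd_mul_of_dvd_right (h1.trans (dvd_pow_self b (by omega))) _
    · exact dvd_sum fun c _ => dvd_mul_of_dvd_right (h1.trans (dvd_fr c.2)) _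
  have h4 := (Nat.prime_dvd_prime_iff_eq hpp hp).1 h3
  have h5 := pg_ge L l m hl x
  have h6 : p ≤ b := Nat.le_of_dvd (by omega) h1
  have h7 : b ≤ b ^ (2 * L + 2) := Nat.le_self_pow (by omega) b
  omega

lemma two_dvd_odd {b : ℕ} (h : b % 2 = 1) (i j : ℕ) : 2 ∣ b ^ i + b ^ j := by
  have h1 : b ^ i % 2 = 1 := by rw [Nat.pow_mod, h]; simp
  have h2 : b ^ j % 2 = 1 := by rw [Nat.pow_mod, h]; simp
  omega

lemma prime_middle {b : ℕ} (hb : 2 ≤ b) {L l m : ℕ} (hl : 1 ≤ l) {x : Fin L → Fin b × Fin 1}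
    (hp : (pg b L l m x).Prime) (hodd : b % 2 = 1) : m % 2 = 1 := by
  by_contra h
  have h2 : 2 ∣ m := by omega
  have h3 : 2 ∣ pg b L l m x := by
    unfold pg
    refine dvd_add (dvd_add (dvd_mul_of_dvd_right ?_ _) (dvd_mul_of_dvd_left h2 _)) ?_
    · have := two_dvd_odd hodd (2 * L + 2) 0
      rwa [pow_zero] at this
    · refine dvd_sum fun c _ => dvd_mul_of_dvd_right ?_ _
      unfold fr
      exact two_dvd_odd hodd _ _
  have h4 := (Nat.prime_dvd_prime_iff_eq Nat.prime_two hp).1 h3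
  have h5 := pg_ge L l m hl x
  have h7 : b ≤ b ^ (2 * L + 2) := Nat.le_self_pow (by omega) b
  omega

lemma cover {b : ℕ} (hb : 2 ≤ b) (L : ℕ) :
    (palin b (L + 1)).filter Nat.Prime ⊆ ((outer b ×ˢ middle b).filter (fun y => 1 ≤ y.1)).biUnion
      (fun y => ((univ : Finset (Fin L → Fin b × Fin 1)).filter
        (fun x => (pg b L y.1 y.2 x).Prime)).image (fun x => pg b L y.1 y.2 x)) := by
  intro n hn
  rw [mem_filter, palin_eq hb (L + 1) (by omega), mem_image] at hn
  obtain ⟨⟨⟨l, m⟩, hx, rfl⟩, hp⟩ := hn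
  rw [mem_product, mem_Icc] at hx
  simp only at hx hp ⊢
  rw [pvl_pg] at hp ⊢
  have hl1 := hx.1.1
  have hl2 := hx.1.2
  rw [mem_biUnion]
  refine ⟨(l, (m 0 : ℕ)), ?_, ?_⟩
  · rw [mem_filter, mem_product]
    refine ⟨⟨?_, ?_⟩, hl1⟩
    · rw [outer, mem_filter, mem_range]
      exact ⟨by omega, prime_outer hb hl1 hp⟩
    · rw [middle, mem_filter, mem_range]
      exact ⟨(m 0).2, fun h => prime_middle hb hl1 hp h⟩
  · rw [mem_image]
    exact ⟨_, by rw [mem_filter]; exact ⟨mem_univ _, hp⟩, rfl⟩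

/-- the total -/
theorem total {b : ℕ} (hb : 2 ≤ b) (hP : PtW b b 1) {κ : ℝ} (hκ0 : 0 < κ) (hκ1 : κ < 1)
    (hB : BigW b b 1 κ) (ε : ℝ) (hε : 0 < ε) : ∀ᶠ N : ℕ in atTop,
    (((range (b ^ (2 * N + 1))).filter (fun n : ℕ => b ^ (2 * N) ≤ n ∧
      (Nat.digits b n).reverse = Nat.digits b n ∧ n.Prime)).card : ℝ) ≤
      (4 / κ + ε) * (((b : ℝ) - ((b % 2 : ℕ) : ℝ)) * (b : ℝ) ^ N / (2 * (N : ℝ) * Real.log b)) := by
  have hbR : (2 : ℝ) ≤ b := by exact_mod_cast hb
  have hb0 : (0 : ℝ) < b := by linarith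
  have hlb : 0 < Real.log b := Real.log_pos (by linarith)
  have htp : (0 : ℝ) < ((2 * b).totient : ℝ) := by
    exact_mod_cast Nat.totient_pos.2 (by omega)
  have h3 : ∀ᶠ L : ℕ in atTop,
    (((range (b ^ (2 * (L + 1) + 1))).filter (fun n : ℕ => b ^ (2 * (L + 1)) ≤ n ∧
      (Nat.digits b n).reverse = Nat.digits b n ∧ n.Prime)).card : ℝ) ≤
      (4 / κ + ε) * (((b : ℝ) - ((b % 2 : ℕ) : ℝ)) * (b : ℝ) ^ (L + 1) /
        (2 * ((L + 1 : ℕ) : ℝ) * Real.log b)) := by
    filter_upwards [famA hb hP hκ0 hκ1 hB ε hε] with L hL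
    have e0 : (range (b ^ (2 * (L + 1) + 1))).filter (fun n : ℕ => b ^ (2 * (L + 1)) ≤ n ∧
      (Nat.digits b n).reverse = Nat.digits b n ∧ n.Prime) = (palin b (L + 1)).filter Nat.Prime := by
      unfold palin
      rw [filter_filter]
      apply filter_congr
      intro n _
      tauto
    rw [e0]
    set B : ℝ := (4 / κ + ε) * (((2 * b : ℕ) : ℝ) / ((2 * b).totient : ℝ)) *
        ((b : ℝ) ^ L / (2 * ((L : ℝ) + 1) * Real.log b)) with hBdef
    have hB0 : 0 ≤ B := by positivity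
    have h1 : ((palin b (L + 1)).filter Nat.Prime).card ≤
        ∑ y ∈ (outer b ×ˢ middle b).filter (fun y => 1 ≤ y.1),
        ((univ : Finset (Fin L → Fin b × Fin 1)).filter (fun x => (pg b L y.1 y.2 x).Prime)).card := by
      refine le_trans (card_le_card (cover hb L)) (le_trans card_biUnion_le ?_)
      exact sum_le_sum (fun y _ => card_image_le)
    calc (((palin b (L + 1)).filter Nat.Prime).card : ℝ) ≤
        ((∑ y ∈ (outer b ×ˢ middle b).filter (fun y => 1 ≤ y.1),
          ((univ : Finset (Fin L → Fin b × Fin 1)).filter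
            (fun x => (pg b L y.1 y.2 x).Prime)).card : ℕ) : ℝ) := by exact_mod_cast h1
      _ = ∑ y ∈ (outer b ×ˢ middle b).filter (fun y => 1 ≤ y.1),
          ((((univ : Finset (Fin L → Fin b × Fin 1)).filter
            (fun x => (pg b L y.1 y.2 x).Prime)).card : ℕ) : ℝ) := by push_cast; rfl
      _ ≤ ∑ y ∈ (outer b ×ˢ middle b).filter (fun y => 1 ≤ y.1), B :=
          sum_le_sum fun y hy => hL y.1 y.2 (mem_filter.1 hy).2
      _ ≤ ∑ y ∈ (outer b ×ˢ middle b), B :=
          sum_le_sum_of_subset_of_nonneg (filter_subset _ _) fun _ _ _ => hB0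
      _ = ((outer b).card : ℝ) * ((middle b).card : ℝ) * B := by
          rw [sum_const, nsmul_eq_mul, card_product]
          push_cast
          ring
      _ = (4 / κ + ε) * ((((outer b).card : ℝ) * ((middle b).card : ℝ) *
          (((2 * b : ℕ) : ℝ) / ((2 * b).totient : ℝ))) *
            ((b : ℝ) ^ L / (2 * ((L : ℝ) + 1) * Real.log b))) := by
          rw [hBdef]
          ring
      _ = _ := by
          rw [cards hb, pow_succ]
          push_cast
          ring
  rw [eventually_atTop] at h3 ⊢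
  obtain ⟨L0, hL0⟩ := h3
  refine ⟨L0 + 1, fun N hN => ?_⟩
  obtain ⟨L, rfl⟩ : ∃ L, N = L + 1 := ⟨N - 1, by omega⟩
  exact hL0 L (by omega)

/-- the digits of `pg` -/
lemma pvl_digit {b : ℕ} (hb : 2 ≤ b) {l N : ℕ} (hl : 1 ≤ l) (hl2 : l < b) (hN : 1 ≤ N)
    (m : Fin N → Fin b) (i : ℕ) (hi : i < 2 * N + 1) :
    pvl b l N m / b ^ i % b = Pool.Agent.H181R5.PBT9.dgl b l N m (Nat.dist i N) := by
  have h1 := Pool.Agent.H181R5.PBT9.digits_pvl hb hl hl2 N hN m
  rw [← Nat.getD_digits _ i hb, h1, List.getD_eq_getElem _ _ (by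
    rw [Pool.Agent.H181R5.PBT9.lst_length]; exact hi)]
  exact Pool.Agent.H181R5.PBT9.lst_getElem l N m i _

/-- the primes with given outer and middle digit -/
theorem perDigit {b : ℕ} (hb : 2 ≤ b) (hP : PtW b b 1) {κ : ℝ} (hκ0 : 0 < κ) (hκ1 : κ < 1)
    (hB : BigW b b 1 κ) (ε : ℝ) (hε : 0 < ε) : ∀ᶠ N : ℕ in atTop, ∀ l m : ℕ,
    (((range (b ^ (2 * N + 1))).filter (fun n : ℕ => b ^ (2 * N) ≤ n ∧
      (Nat.digits b n).reverse = Nat.digits b n ∧ n.Prime ∧ n % b = l ∧ n / b ^ N % b = m)).card : ℝ) ≤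
      (4 / κ + ε) * ((((2 * b : ℕ) : ℝ) / ((2 * b).totient : ℝ)) * (b : ℝ) ^ (N - 1) /
        (2 * (N : ℝ) * Real.log b)) := by
  have hbR : (2 : ℝ) ≤ b := by exact_mod_cast hb
  have hb0 : (0 : ℝ) < b := by linarith
  have hlb : 0 < Real.log b := Real.log_pos (by linarith)
  have htp : (0 : ℝ) < ((2 * b).totient : ℝ) := by
    exact_mod_cast Nat.totient_pos.2 (by omega)
  have h3 : ∀ᶠ L : ℕ in atTop, ∀ l m : ℕ,
    (((range (b ^ (2 * (L + 1) + 1))).filter (fun n : ℕ => b ^ (2 * (L + 1)) ≤ n ∧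
      (Nat.digits b n).reverse = Nat.digits b n ∧ n.Prime ∧ n % b = l ∧
        n / b ^ (L + 1) % b = m)).card : ℝ) ≤
      (4 / κ + ε) * ((((2 * b : ℕ) : ℝ) / ((2 * b).totient : ℝ)) * (b : ℝ) ^ (L + 1 - 1) /
        (2 * ((L + 1 : ℕ) : ℝ) * Real.log b)) := by
    filter_upwards [famA hb hP hκ0 hκ1 hB ε hε] with L hL l m
    have hsub : (range (b ^ (2 * (L + 1) + 1))).filter (fun n : ℕ => b ^ (2 * (L + 1)) ≤ n ∧
      (Nat.digits b n).reverse = Nat.digits b n ∧ n.Prime ∧ n % b = l ∧ n / b ^ (L + 1) % b = m) ⊆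
        if 1 ≤ l then ((univ : Finset (Fin L → Fin b × Fin 1)).filter
        (fun x => (pg b L l m x).Prime)).image (fun x => pg b L l m x) else ∅ := by
      intro n hn
      rw [mem_filter] at hn
      obtain ⟨hn0, hn1, hn2, hn3, hn4, hn5⟩ := hn
      have hn6 : n ∈ palin b (L + 1) := by
        unfold palin
        rw [mem_filter]
        exact ⟨hn0, hn1, hn2⟩
      rw [palin_eq hb (L + 1) (by omega), mem_image] at hn6
      obtain ⟨⟨l', m'⟩, hx, rfl⟩ := hn6
      rw [mem_product, mem_Icc] at hx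
      simp only at hx hn3 hn4 hn5 ⊢
      have hl1 := hx.1.1
      have hl2 := hx.1.2
      have e1 := pvl_digit hb hl1 (by omega) (by omega) m' 0 (by omega)
      have e2 := pvl_digit hb hl1 (by omega) (by omega) m' (L + 1) (by omega)
      have d1 : Nat.dist 0 (L + 1) = L + 1 := by
        rw [Nat.dist_eq_sub_of_le (by omega)]; omega
      rw [d1, Pool.Agent.H181R5.PBT9.dgl_L, pow_zero, Nat.div_one, hn4] at e1
      rw [Nat.dist_self, hn5] at e2
      unfold Pool.Agent.H181R5.PBT9.dgl at e2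
      rw [dif_pos (by omega)] at e2
      subst e1
      rw [if_pos hl1, mem_image]
      have e3 : m = (m' 0 : ℕ) := e2
      refine ⟨fun c => (m' c.succ, 0), ?_, ?_⟩
      · rw [mem_filter]
        refine ⟨mem_univ _, ?_⟩
        rw [e3, ← pvl_pg]
        exact hn3
      · rw [e3, ← pvl_pg]
    rcases Nat.eq_zero_or_pos l with h0 | h0
    · rw [if_neg (by omega), subset_empty] at hsub
      rw [hsub, card_empty, Nat.cast_zero]
      positivity
    · have h0' : 1 ≤ l := h0
      rw [if_pos h0'] at hsub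
      have h1 := (card_le_card hsub).trans card_image_le
      calc (((range (b ^ (2 * (L + 1) + 1))).filter (fun n : ℕ => b ^ (2 * (L + 1)) ≤ n ∧
            (Nat.digits b n).reverse = Nat.digits b n ∧ n.Prime ∧ n % b = l ∧
            n / b ^ (L + 1) % b = m)).card : ℝ) ≤ ((((univ : Finset (Fin L → Fin b × Fin 1)).filter
              (fun x => (pg b L l m x).Prime)).card : ℕ) : ℝ) := by exact_mod_cast h1
        _ ≤ _ := hL l m h0'
        _ = _ := by
            rw [Nat.add_sub_cancel]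
            push_cast
            ring
  rw [eventually_atTop] at h3 ⊢
  obtain ⟨L0, hL0⟩ := h3
  refine ⟨L0 + 1, fun N hN => ?_⟩
  obtain ⟨L, rfl⟩ : ∃ L, N = L + 1 := ⟨N - 1, by omega⟩
  exact hL0 L (by omega)

end Pool.Agent.Y928.PU
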